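import Pool.Agent.K1H27.BN.Fin

/-!
# MP_5ac32f_an: scalar type operators on Banach spaces plus nuclear operators

Let `X` be an arbitrary complex Banach space, `N` an operator with a bounded functional calculus for the
continuous functions on a compact set (on reflexive spaces these are the scalar type operators of Dunford:
multiplications on `L^p`, diagonal operators with respect to unconditional bases, ...) and `K` a nuclear
operator of order less than one, `K y = ∑ f_j(y) x_j` with `∑ (‖f_j‖ ‖x_j‖)^q < ∞`, `q < 1`. No condition is put on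
the spectrum of `N`. Then for every `t` outside a set which is null for all atomless measures with bounded
logarithmic potential, in particular for almost every complex and for almost every real `t`, the operator
`N + t K` is a multiple of the identity or has a nontrivial closed hyperinvariant subspace; every point of its
spectrum carries, for every `ε > 0`, a nonzero vector whose local spectrum is in the disc of radius `ε`, and
the same holds for the adjoint.

On Hilbert spaces the starting library has the case that `K` is of trace class (`NormalPlusTraceClass`), on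
Banach spaces perturbations of rank one (`RankOneScalarType`), and nuclear perturbations of operators with a
log-integrable resolvent near a part of the spectrum, which is a null set (`NuclearCouplings`). For scalar
type operators whose spectrum has positive area and perturbations of infinite rank nothing was known outside
of Hilbert spaces.

Proof. Let `p = 2 max (q, 3/4)`; after rescaling `‖f_j‖`, `‖x_j‖` are `p`-summable. The measures `y(Φ(·) x)` have
Cauchy transforms `C(y, x)`, which are in `L^p` of every disc, with norm at most `C ‖y‖ ‖x‖` (by duality, since the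
Cauchy transforms of functions in `L^p'` are bounded). The formal local resolvent of `x` at `z` is
`(z - N)⁻¹ (x + t ∑ c_j(z) x_j)`, `c = b + t F c`, `F_ij = C(f_i, x_j)`, `b_i = C(f_i, x)`. For almost every `z` the
matrix `F(z)` is in `ℓ^p(ℕ × ℕ)`, and Hadamard's inequality for the regularized determinants
`det (1 - t F_n(z)) exp (t tr F_n(z))` of the finite sections bounds them and the inverse matrices; as they are `1` for
`t = 0`, the functions `log⁻ |det (1 - t F_n(z)) exp (t tr F_n(z))|` have bounded integrals with respect to `(z, t)`.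
So for almost every `t` the solutions `c(z)` exist for almost every `z`, and `log⁺ ‖c(z)‖` is integrable over discs.
By Jensen's inequality, Hahn-Banach and weak compactness there is a bounded function `g` on the disc of
radius `ρ` about `a` with `|g| (1 + ‖c(z)‖) ≤ 1`, `∫ (z - a)^n g = 0` for `n ≥ 1` and `∫ g ≠ 0` (this replaces the outer
functions on circles used for Hilbert spaces: area integrals of `1 / (z - w)` are continuous in `w`, so that
the functional calculus applies). The vectors `X_n = ∫ (z - a)^n g(z) (z - N)⁻¹ (x + t ∑ c_j(z) x_j)` satisfy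
`(T - a) X_n = X_(n+1)` for `n ≥ 1`, `(T - a) X_0 = X_1 - (∫ g) x` and `‖X_n‖ ≤ C ρ^n`; the series over `j` converge in
norm, so reflexivity is not needed. If `x` is not in the range of `T - a`, then `X_1 ≠ 0`. The same applies to the
adjoint of `T`; if the spectrum has two points, such vectors for `T` and its adjoint annihilate each other
across the commutant. If the spectrum is one point `a`, then `T - a` is compact, and Lomonosov's theorem applies.

The parts of the formal proof were written by helpers 4 (Cauchy transforms), 74 (Jensen's inequality), 24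
(weights), 48 (generic couplings), 59 (linear systems), 97 (norms), 73 (local resolvents), 14 (one point
spectrum), 67 (nuclear representations) and 27 (idea, statements, assembly); `R277.SP` (functional calculi,
Cauchy transforms of bounded functions, annihilation) is from the starting library, the determinants are from
`K1H31.SN` and `R276.CP`.
-/

set_option autoImplicit false

open MeasureTheory Metric
open scoped ENNReal NNReal

namespace Pool.Agent.Results.MP_5ac32f_an.NuclearScalarType

section Defs

variable {X : Type} [NormedAddCommGroup X] [NormedSpace ℂ X]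

/-- `T` is a multiple of the identity. -/
def IsScalar (T : X →L[ℂ] X) : Prop := ∃ c : ℂ, T = c • (1 : X →L[ℂ] X)

/-- `T` has a closed subspace, neither `{0}` nor the whole space, which is invariant under every
bounded operator commuting with `T`. -/
def HasHyperinvariant (T : X →L[ℂ] X) : Prop :=
  ∃ V : Submodule ℂ X, IsClosed (V : Set X) ∧ V ≠ ⊥ ∧ V ≠ ⊤ ∧
    ∀ Q : X →L[ℂ] X, Q * T = T * Q → ∀ x ∈ V, Q x ∈ V

/-- For every point `c` of the spectrum and every `ε > 0` there is a nonzero vector `x` with
`‖(T - c)^n x‖ ≤ C ε ^ n` for all `n`. -/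
def SmallLocalSpectra (T : X →L[ℂ] X) : Prop :=
  ∀ c ∈ spectrum ℂ T, ∀ ε : ℝ, 0 < ε → ∃ (x : X) (C : ℝ), x ≠ 0 ∧
    ∀ n : ℕ, ‖((T - c • (1 : X →L[ℂ] X)) ^ n) x‖ ≤ C * ε ^ n

/-- The adjoint `f ↦ f ∘ T` on the dual space. -/
noncomputable def adjoint (T : X →L[ℂ] X) : (X →L[ℂ] ℂ) →L[ℂ] (X →L[ℂ] ℂ) :=
  (ContinuousLinearMap.compL ℂ X X ℂ).flip T

/-- The conclusion for one operator: `T` is a multiple of the identity or has a nontrivial hyperinvariant
subspace, and `T` and its adjoint have small local spectra. -/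
def Good (T : X →L[ℂ] X) : Prop :=
  (IsScalar T ∨ HasHyperinvariant T) ∧ SmallLocalSpectra T ∧ SmallLocalSpectra (adjoint T)

/-- The algebra homomorphism `Φ` is a bounded functional calculus of `N` for the continuous functions on
the compact set `S`. -/
structure IsCalculus (S : Set ℂ) (Φ : C(S, ℂ) →ₐ[ℂ] (X →L[ℂ] X)) (N : X →L[ℂ] X) : Prop where
  compact : IsCompact S
  bounded : ∃ M : ℝ, ∀ (h : C(S, ℂ)) (B : ℝ), 0 ≤ B → (∀ s, ‖h s‖ ≤ B) → ‖Φ h‖ ≤ M * B
  identity : ∀ h : C(S, ℂ), (∀ s : S, h s = s) → Φ h = N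

/-- `K` is nuclear of order `q`: `K y = ∑ f_j(y) x_j` with `∑ (‖f_j‖ ‖x_j‖) ^ q < ∞`. -/
def Nuclear (q : ℝ) (K : X →L[ℂ] X) : Prop :=
  ∃ (f : ℕ → (X →L[ℂ] ℂ)) (x : ℕ → X), (Summable fun j => (‖f j‖ * ‖x j‖) ^ q) ∧
    ∀ y, HasSum (fun j => f j y • x j) (K y)

end Defs

/-- The measure `m` has no atoms, and on every disc `|t| < R` it is finite and
`∫ log⁺ (1 / |t - s|) dm(t)` is bounded in `s ∈ ℂ`. -/
def BoundedPotential (m : Measure ℂ) : Prop :=
  (∀ s : ℂ, m {s} = 0) ∧
  ∀ R : ℝ, m (ball (0:ℂ) R) ≠ ⊤ ∧ ∃ C : ℝ≥0, ∀ s : ℂ,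
    ∫⁻ t in ball (0:ℂ) R, ENNReal.ofReal (Real.posLog ‖t - s‖⁻¹) ∂m ≤ C

/-- from the two forms of the condition on the measure -/
theorem logBd {m : Measure ℂ} (hm : BoundedPotential m) : Pool.Agent.Y283.NK.LogBd m := by
  intro R
  obtain ⟨h0, hm⟩ := hm
  obtain ⟨h1, C, hC⟩ := hm R
  refine ⟨C + (m (ball (0:ℂ) R)).toNNReal, ?_, fun s => ?_⟩
  · rw [ENNReal.coe_add, ENNReal.coe_toNNReal h1]
    exact le_add_self
  · calc ∫⁻ t in ball (0:ℂ) R, Pool.Agent.Y283.NK.lm ‖t - s‖ ∂m
        = ∫⁻ t in ball (0:ℂ) R, ENNReal.ofReal (Real.posLog ‖t - s‖⁻¹) ∂m := by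
          refine lintegral_congr_ae (ae_restrict_of_ae ?_)
          have h2 : ∀ᵐ t ∂m, t ≠ s := by
            rw [ae_iff]
            simpa using h0 s
          filter_upwards [h2] with t ht
          unfold Pool.Agent.Y283.NK.lm
          rw [if_neg (by simpa [sub_eq_zero] using ht)]
      _ ≤ C := hC s
      _ ≤ _ := by rw [ENNReal.coe_add]; exact le_self_add

/-- the library form of the theorem -/
theorem core {X : Type} [NormedAddCommGroup X] [NormedSpace ℂ X] [CompleteSpace X] {S : Set ℂ}
    [CompactSpace S] {Φ : C(S, ℂ) →ₐ[ℂ] (X →L[ℂ] X)} {N K : X →L[ℂ] X} {M : ℝ}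
    (hF : Pool.Agent.R277.SP.FC Φ N M) {q : ℝ} (hq0 : 0 < q) (hq : q < 1) (hK : Nuclear q K) :
    (∀ (m : Measure ℂ) [SFinite m], BoundedPotential m → ∀ᵐ t ∂m, Good (N + t • K)) ∧
    (∀ᵐ t : ℂ, Good (N + t • K)) ∧
    (∀ᵐ t : ℝ, Good (N + (t : ℂ) • K)) := by
  obtain ⟨f, x, h1, h2⟩ := hK
  obtain ⟨p, f', x', p1, p2, hR⟩ := Pool.Agent.K1H27.BN.rsc q hq0 hq K f x h1 h2
  have main : ∀ (m : Measure ℂ) [SFinite m], Pool.Agent.Y283.NK.LogBd m →
      ∀ᵐ t ∂m, Good (N + t • K) := by
    intro m _ hm
    exact Pool.Agent.K1H27.BN.final hF p1 p2 hR m hm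
  refine ⟨fun m _ hm => main m (logBd hm), ?_, ?_⟩
  · exact main volume Pool.Agent.Y891.NK.main_vol.1
  · have h := main (Measure.map (fun t : ℝ => (t : ℂ)) volume) Pool.Agent.Y891.NK.main_vol.2
    exact ae_of_ae_map Complex.continuous_ofReal.measurable.aemeasurable h

/-- **Scalar type operators plus nuclear operators on Banach spaces.** Let `X` be a complex Banach space,
`Φ` a bounded functional calculus of the operator `N` on `X` for the continuous functions on a compact set
`S`, and `K` nuclear of order `q`, `0 < q < 1`. Then `N + t K` is good (a multiple of the identity or with a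
nontrivial hyperinvariant subspace, and with small local spectra, as its adjoint) for almost every `t` with
respect to every atomless measure with bounded logarithmic potential, in particular for almost every
complex and for almost every real `t`. -/
theorem result (X : Type) [NormedAddCommGroup X] [NormedSpace ℂ X] [CompleteSpace X] (S : Set ℂ)
    (Φ : C(S, ℂ) →ₐ[ℂ] (X →L[ℂ] X)) (N K : X →L[ℂ] X) (hΦ : IsCalculus S Φ N) (q : ℝ)
    (hq0 : 0 < q) (hq : q < 1) (hK : Nuclear q K) :
    (∀ (m : Measure ℂ) [SFinite m], BoundedPotential m → ∀ᵐ t ∂m, Good (N + t • K)) ∧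
    (∀ᵐ t : ℂ, Good (N + t • K)) ∧
    (∀ᵐ t : ℝ, Good (N + (t : ℂ) • K)) := by
  have : CompactSpace S := isCompact_iff_compactSpace.1 hΦ.compact
  obtain ⟨M, hM⟩ := hΦ.bounded
  have hF : Pool.Agent.R277.SP.FC Φ N |M| := by
    refine ⟨abs_nonneg M, fun h => ?_, hΦ.identity _ fun s => rfl⟩
    exact (hM h ‖h‖ (norm_nonneg _) fun s => h.norm_coe_le_norm s).trans
      (mul_le_mul_of_nonneg_right (le_abs_self M) (norm_nonneg _))
  exact core hF hq0 hq hK

/-- Corollary: multiplication operators on `L^p(μ)`, `1 ≤ p ≤ ∞`. -/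
theorem multiplication (Ω : Type) [MeasurableSpace Ω] (μ : Measure Ω) (p : ℝ≥0∞) [Fact (1 ≤ p)]
    (φ : Ω → ℂ) (hφ : Measurable φ) (C : ℝ) (hC : ∀ s, ‖φ s‖ ≤ C)
    (N K : Lp ℂ p μ →L[ℂ] Lp ℂ p μ) (hN : ∀ f : Lp ℂ p μ, ⇑(N f) =ᵐ[μ] fun s => φ s * f s)
    (q : ℝ) (hq0 : 0 < q) (hq : q < 1) (hK : Nuclear q K) :
    (∀ (m : Measure ℂ) [SFinite m], BoundedPotential m → ∀ᵐ t ∂m, Good (N + t • K)) ∧
    (∀ᵐ t : ℂ, Good (N + t • K)) ∧
    (∀ᵐ t : ℝ, Good (N + (t : ℂ) • K)) := by
  obtain ⟨S, _, Φ, M, hF⟩ := Pool.Agent.K1H27.BN.fc_mul hφ hC hN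
  exact core hF hq0 hq hK

/-- Corollary: diagonal operators with respect to an unconditional basis `e` (with coefficient functionals
`f`) of a Banach space. -/
theorem diagonal (X : Type) [NormedAddCommGroup X] [NormedSpace ℂ X] [CompleteSpace X] (e : ℕ → X)
    (f : ℕ → (X →L[ℂ] ℂ)) (hb : ∀ i j, f i (e j) = if i = j then 1 else 0)
    (hs : ∀ x, HasSum (fun n => f n x • e n) x) (D K : X →L[ℂ] X)
    (hD : ∀ n, ∃ l : ℂ, D (e n) = l • e n) (q : ℝ) (hq0 : 0 < q) (hq : q < 1)
    (hK : Nuclear q K) :
    (∀ (m : Measure ℂ) [SFinite m], BoundedPotential m → ∀ᵐ t ∂m, Good (D + t • K)) ∧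
    (∀ᵐ t : ℂ, Good (D + t • K)) ∧
    (∀ᵐ t : ℝ, Good (D + (t : ℂ) • K)) := by
  choose l hl using hD
  obtain ⟨S, _, Φ, M, hF⟩ := Pool.Agent.K1H27.BN.fc_diag ⟨hb, hs⟩ hl
  exact core hF hq0 hq hK

end Pool.Agent.Results.MP_5ac32f_an.NuclearScalarType
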