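import Pool.Agent.K1H27.PL.End

/-!
# MP_5ac32f_an: multiplication operators plus integral operators with regular kernels on `L^p`

Let `1 < p < ∞`, `μ` σ-finite, `φ` any bounded measurable complex function, and let `K` be the integral
operator on `L^p(μ)` with kernel `k`. Suppose that over some open set `U ⊆ ℂ` with `μ(φ⁻¹(U)) > 0` the kernel
is regular with respect to `φ`: for some `γ > 1` the mixed norms

  `∫ (∫ |k(s,t)|^q |z' - φ(t)|^(-γ) dμ(t))^(p/q) |z - φ(s)|^(-γ) dμ(s)`,   `1/p + 1/q = 1`,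

are bounded for `z, z' ∈ U`, and the same holds for the transposed kernel, with `p` and `q` exchanged. Then
`T = M_φ + K` is a multiple of the identity or has a nontrivial closed hyperinvariant subspace. No
condition is put on the spectrum, and there are no exceptional coupling constants. Moreover for every
open `V ⊆ U` with `μ(φ⁻¹(V)) > 0` there is a nonzero vector whose local spectrum is in a closed disc
contained in `V`.

For `p = 2` the condition means that `|N - z|^(-γ/2) K |N - z'|^(-γ/2)` are Hilbert-Schmidt operators with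
bounded norms, `N = M_φ` being (up to unitary equivalence) an arbitrary normal operator. Examples
(`regular_of_integrable`, `regular_of_bounded`, `regular_of_singular`): let `φ` be of dimension `e > 1` in
the sense that `μ{|φ - z| < r} ≤ C r^e`, for instance `e = 2` and `φ(s) = s` on a bounded planar set of
positive area. Then all bounded kernels are regular, for all `p`; all kernels with `|k| ≤ h`,
`h ∈ L^r(μ × μ)`, `r > max (p, q) e / (e - 1)`; and for `p = 2` also all kernels with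
`|k(s,t)| ≤ c |φ(s) - φ(t)|^(-θ)`, `θ < e - 1`.

Proof. For `z ∈ U` put `α_z = |z - φ|^(-1/p)`, `β_z = |z - φ|^(1/p) / (z - φ)`. The operators
`H(z) = α_z K β_z` are of Hille-Tamarkin type and depend continuously on `z ∈ U`, although `α_z` and
`β_z` are unbounded. Formally `(z - T)⁻¹ = β_z (1 - H(z))⁻¹ α_z`. The vectors `∫_A β_z w(z) dz` (area
integrals) exist for all `w ∈ L^p(A; L^p(μ))`, by duality, and `∫ |α_z x|^p dz ≤ C |x|^p`. Let `Z` be the
set of `z ∈ U` where `1 - H(z)` is not invertible.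

(A) If `c ∈ U \ Z` is in the spectrum of `T`, one integrates the formal local resolvents of `x` over small
annuli about `c` with the weights `(z - c)^n / |z - c|`. This gives vectors `X_n` with
`(T - c) X_n = X_(n+1)`, `|X_n| ≤ D ρ^n`, and `X_0 ≠ 0` if `x` is not in the range of `T - c`.

(B) If `Z` has positive area in a disc `D`, there are measurable `u(z) ∈ ker (1 - H(z))`, not almost
everywhere zero, and the vectors `X_n = ∫ (z - c)^n 1_B(z) β_z u(z) dz` satisfy `(T - c) X_n = X_(n+1)`;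
for some `B ⊆ D` one has `X_0 ≠ 0`.

(C) Suppose that `T` has no eigenvalues. Then `φ` has no atoms over `U`. If the essential range `R` of
`φ` has positive area in `U`, (A) or (B) applies near every point of density. Otherwise suppose that
`R ∩ U \ Z` has at most one point `b`. Near each other point `z₀` of `R ∩ U` there is a local determinant:
a continuous function `d` with `d(z) = 0` exactly if `z ∈ Z`, analytic off `R` (one approximates
`H(z₀)` by a finite rank operator of the form `α_z₀ K₀ β_z₀`, where `K₀` does not see the values of `φ` near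
`z₀`). Off `R` the points of `Z` are eigenvalues of `T`, so the zeros of `d` are exactly the points of `R`.
By Radó's theorem `d` is analytic, and `R` is perfect in `U`, so `d` vanishes identically and `R` contains a
disc: a contradiction. So `R ∩ U \ Z` has at least two points and (A) applies at two points, for `T` and for
the transposed operator on `L^q`. The vectors for the two operators at different points annihilate each
other across the commutant.

The parts of the formal proof were written by helpers 59 (multiplication operators, Radó's theorem), 39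
(norms of area integrals), 1 (cut-off functions), 45 (the operators `H(z)`), 68 (approximation by finite
rank), 10 (measurable vectors in kernels of matrices, examples), 38 (measurable selection), 96 (approximate
eigenvectors), 99 (examples), 37 (Caccioppoli's inequality for Radó's theorem), 69 and 65 (local
determinant), 26 (eigenvectors, essential range), 28 (duality), 48 (annihilation), 27 (proof, integrated
resolvents and eigenvectors, assembly).
-/

set_option autoImplicit false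

open MeasureTheory Metric
open scoped ENNReal NNReal

namespace Pool.Agent.Results.MP_5ac32f_an.RegularKernelPerturbations

/-- `T` is a multiple of the identity. -/
def IsScalar {X : Type} [NormedAddCommGroup X] [NormedSpace ℂ X] (T : X →L[ℂ] X) : Prop :=
  ∃ c : ℂ, T = c • (1 : X →L[ℂ] X)

/-- `T` has a closed subspace, neither `{0}` nor the whole space, which is invariant under every
bounded operator commuting with `T`. -/
def HasHyperinvariant {X : Type} [NormedAddCommGroup X] [NormedSpace ℂ X] (T : X →L[ℂ] X) : Prop :=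
  ∃ V : Submodule ℂ X, IsClosed (V : Set X) ∧ V ≠ ⊥ ∧ V ≠ ⊤ ∧
    ∀ Q : X →L[ℂ] X, Q * T = T * Q → ∀ x ∈ V, Q x ∈ V

/-- The kernel `k` is regular over `U ⊆ ℂ` with respect to `φ` and the exponents `p`, `q`: for some `γ > 1`
the integrals `∫ (∫ |k(s,t)|^q |z' - φ(t)|^(-γ) dμ(t))^(p/q) |z - φ(s)|^(-γ) dμ(s)` are bounded for
`z, z' ∈ U`. -/
def RegularOver {S : Type} [MeasurableSpace S] (μ : Measure S) (p q : ℝ≥0∞) (φ : S → ℂ) (U : Set ℂ)
    (k : S → S → ℂ) : Prop :=
  ∃ (γ : ℝ) (D : ℝ≥0), 1 < γ ∧ ∀ z ∈ U, ∀ z' ∈ U,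
    ∫⁻ s, (∫⁻ t, ‖k s t‖ₑ ^ q.toReal * (‖z' - φ t‖ₑ⁻¹) ^ γ ∂μ) ^ (p.toReal / q.toReal) *
      (‖z - φ s‖ₑ⁻¹) ^ γ ∂μ ≤ D

/-- **Multiplication operators plus integral operators with regular kernels on `L^p`.** Let
`1 < p < ∞`, let `φ` be any bounded measurable complex function, `U ⊆ ℂ` an open set with
`μ(φ⁻¹(U)) > 0` and `k` a measurable kernel which is regular over `U`, as well as the transposed kernel,
with `p` and `q` exchanged. Then `(T f)(s) = φ(s) f(s) + ∫ k(s, t) f(t) dμ(t)` defines a bounded operator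
on `L^p(μ)`, which is a multiple of the identity or has a nontrivial closed hyperinvariant subspace. For
every open `V ⊆ U` with `μ(φ⁻¹(V)) > 0` there are `x ≠ 0` and a closed disc in `V`, of centre `c` and
radius `ρ > 0`, with `‖(T - c)^n x‖ ≤ C ρ^n` for all `n`. -/
theorem result (S : Type) [MeasurableSpace S] (μ : Measure S) [SigmaFinite μ] (p q : ℝ≥0∞)
    [Fact (1 ≤ p)] (hpq : p⁻¹ + q⁻¹ = 1) (hp : p ≠ ∞) (hq : q ≠ ∞) (φ : S → ℂ)
    (hφ : Measurable φ) (hφb : ∃ M : ℝ, ∀ s, ‖φ s‖ ≤ M) (k : S → S → ℂ)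
    (hk : Measurable (Function.uncurry k)) (U : Set ℂ) (hU : IsOpen U) (hpos : μ (φ ⁻¹' U) ≠ 0)
    (h : RegularOver μ p q φ U k) (h' : RegularOver μ q p φ U (fun s t => k t s)) :
    ∃ T : Lp ℂ p μ →L[ℂ] Lp ℂ p μ,
      (∀ f : Lp ℂ p μ, ∀ᵐ s ∂μ, T f s = φ s * f s + ∫ t, k s t * f t ∂μ) ∧
      (IsScalar T ∨ HasHyperinvariant T) ∧
      ∀ V : Set ℂ, IsOpen V → V ⊆ U → μ (φ ⁻¹' V) ≠ 0 →
        ∃ (x : Lp ℂ p μ) (c : ℂ) (ρ C : ℝ), x ≠ 0 ∧ 0 < ρ ∧ closedBall c ρ ⊆ V ∧
          ∀ n : ℕ, ‖((T - c • (1 : Lp ℂ p μ →L[ℂ] Lp ℂ p μ)) ^ n) x‖ ≤ C * ρ ^ n := by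
  obtain ⟨γ, D, hγ, hW⟩ := h
  obtain ⟨γ', D', hγ', hW'⟩ := h'
  exact Pool.Agent.K1H27.PL.final (ENNReal.holderConjugate_iff.2 hpq) hp hq hφ hφb hU hγ hγ' hk
    hW hW' hpos

section Examples

variable {S : Type} [MeasurableSpace S] {μ : Measure S} [SigmaFinite μ] {φ : S → ℂ}

/-- `φ` has dimension at least `e`: the `φ`-image of `μ` of a disc of radius `r` is at most `C r^e`. -/
def HasDimension (μ : Measure S) (φ : S → ℂ) (e : ℝ) : Prop :=
  ∃ C : ℝ≥0, ∀ (z : ℂ) (r : ℝ), 0 < r → μ {s | ‖φ s - z‖ < r} ≤ C * ENNReal.ofReal (r ^ e)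

/-- If `φ` has dimension `e > 1`, the kernels dominated by a function in `L^r(μ × μ)`,
`r > max (p, q) e / (e - 1)`, are regular. -/
theorem regular_of_integrable (hφ : Measurable φ) (hφb : ∃ M : ℝ, ∀ s, ‖φ s‖ ≤ M) {e : ℝ}
    (he1 : 1 < e) (he2 : e ≤ 2) (hdim : HasDimension μ φ e) {p q : ℝ≥0∞}
    (hpq : p⁻¹ + q⁻¹ = 1) (hp : p ≠ ∞) (hq : q ≠ ∞) {k : S → S → ℂ}
    (hk : Measurable (Function.uncurry k)) {h : S → S → ℝ}
    (hh : Measurable (Function.uncurry h)) {r : ℝ}
    (hr : max p.toReal q.toReal * (e / (e - 1)) < r)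
    (hhr : ∫⁻ s, ∫⁻ t, ‖h s t‖ₑ ^ r ∂μ ∂μ ≠ ⊤) (hkh : ∀ s t, ‖k s t‖ ≤ |h s t|) :
    RegularOver μ p q φ Set.univ k ∧ RegularOver μ q p φ Set.univ (fun s t => k t s) := by
  obtain ⟨C, hC⟩ := hdim
  obtain ⟨hA, -⟩ := Pool.Agent.K1H10.PL.t_COR2 S μ φ hφ hφb C e he1 he2 hC
  have hpq' : p.HolderConjugate q := ENNReal.holderConjugate_iff.2 hpq
  constructor
  · obtain ⟨γ, hγ, D, hW⟩ := hA p q hpq' hp hq k h r hk hh hr hhr hkh
    exact ⟨γ, D, hγ, hW⟩
  · have e1 : ∫⁻ s, ∫⁻ t, ‖h t s‖ₑ ^ r ∂μ ∂μ = ∫⁻ s, ∫⁻ t, ‖h s t‖ₑ ^ r ∂μ ∂μ := by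
      have e2 : Measurable (Function.uncurry fun s t => ‖h t s‖ₑ ^ r) :=
        (hh.comp measurable_swap).enorm.pow_const r
      exact lintegral_lintegral_swap e2.aemeasurable
    obtain ⟨γ, hγ, D, hW⟩ := hA q p hpq'.symm hq hp (fun s t => k t s) (fun s t => h t s) r
      (hk.comp measurable_swap) (hh.comp measurable_swap) (by rwa [max_comm])
      (by rw [e1]; exact hhr) (fun s t => hkh t s)
    exact ⟨γ, D, hγ, hW⟩

/-- If `φ` has dimension `e > 1`, all bounded kernels are regular, for all exponents. -/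
theorem regular_of_bounded (hφ : Measurable φ) (hφb : ∃ M : ℝ, ∀ s, ‖φ s‖ ≤ M) {e : ℝ}
    (he1 : 1 < e) (he2 : e ≤ 2) (hdim : HasDimension μ φ e) {p q : ℝ≥0∞}
    (hpq : p⁻¹ + q⁻¹ = 1) (hp : p ≠ ∞) (hq : q ≠ ∞) {k : S → S → ℂ}
    (hk : Measurable (Function.uncurry k)) (hkb : ∃ M : ℝ, ∀ s t, ‖k s t‖ ≤ M) :
    RegularOver μ p q φ Set.univ k ∧ RegularOver μ q p φ Set.univ (fun s t => k t s) := by
  obtain ⟨M, hM⟩ := hkb
  have hfin : μ Set.univ ≠ ⊤ := by
    obtain ⟨C, hC⟩ := hdim
    obtain ⟨M', hM'⟩ := hφb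
    have h1 : (Set.univ : Set S) = {s | ‖φ s - 0‖ < |M'| + 1} := by
      ext s
      have h2 : ‖φ s‖ < |M'| + 1 := by
        have := hM' s
        have := le_abs_self M'
        linarith
      simpa using h2
    rw [h1]
    exact ne_top_of_le_ne_top (ENNReal.mul_ne_top ENNReal.coe_ne_top ENNReal.ofReal_ne_top)
      (hC 0 _ (by positivity))
  refine regular_of_integrable hφ hφb he1 he2 hdim hpq hp hq hk (h := fun _ _ => M)
    measurable_const (r := max p.toReal q.toReal * (e / (e - 1)) + 1) (by linarith) ?_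
    (fun s t => (hM s t).trans (le_abs_self M))
  rw [lintegral_const, lintegral_const]
  refine ENNReal.mul_ne_top (ENNReal.mul_ne_top ?_ hfin) hfin
  have h0 : 0 ≤ max p.toReal q.toReal * (e / (e - 1)) + 1 := by
    have h1 : 0 ≤ max p.toReal q.toReal := le_max_of_le_left ENNReal.toReal_nonneg
    have h2 : 0 < e - 1 := by linarith
    positivity
  exact ENNReal.rpow_ne_top_of_nonneg h0 (by simp)

/-- If `φ` has dimension `e > 1` and `p = 2`, weakly singular kernels are regular. -/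
theorem regular_of_singular (hφ : Measurable φ) (hφb : ∃ M : ℝ, ∀ s, ‖φ s‖ ≤ M) {e : ℝ}
    (he1 : 1 < e) (he2 : e ≤ 2) (hdim : HasDimension μ φ e) {k : S → S → ℂ}
    (hk : Measurable (Function.uncurry k)) {h : S → S → ℝ}
    (hh : Measurable (Function.uncurry h)) {r θ c : ℝ} (hr : 2 * (e / (e - 1)) < r)
    (hθ0 : 0 ≤ θ) (hθ : θ < e - 1) (hhr : ∫⁻ s, ∫⁻ t, ‖h s t‖ₑ ^ r ∂μ ∂μ ≠ ⊤)
    (hkh : ∀ s t, φ s ≠ φ t → ‖k s t‖ ≤ |h s t| + c * ‖φ s - φ t‖ ^ (-θ)) :
    RegularOver μ 2 2 φ Set.univ k ∧ RegularOver μ 2 2 φ Set.univ (fun s t => k t s) := by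
  obtain ⟨C, hC⟩ := hdim
  obtain ⟨-, hB⟩ := Pool.Agent.K1H10.PL.t_COR2 S μ φ hφ hφb C e he1 he2 hC
  constructor
  · obtain ⟨γ, hγ, D, hW⟩ := hB k h r θ c hk hh hr hθ0 hθ hhr hkh
    exact ⟨γ, D, hγ, hW⟩
  · have e1 : ∫⁻ s, ∫⁻ t, ‖h t s‖ₑ ^ r ∂μ ∂μ = ∫⁻ s, ∫⁻ t, ‖h s t‖ₑ ^ r ∂μ ∂μ := by
      have e2 : Measurable (Function.uncurry fun s t => ‖h t s‖ₑ ^ r) :=
        (hh.comp measurable_swap).enorm.pow_const r
      exact lintegral_lintegral_swap e2.aemeasurable
    obtain ⟨γ, hγ, D, hW⟩ := hB (fun s t => k t s) (fun s t => h t s) r θ c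
      (hk.comp measurable_swap) (hh.comp measurable_swap) hr hθ0 hθ (by rw [e1]; exact hhr)
      (fun s t hst => by
        have h3 := hkh t s (Ne.symm hst)
        rwa [norm_sub_rev] at h3)
    exact ⟨γ, D, hγ, hW⟩

end Examples

end Pool.Agent.Results.MP_5ac32f_an.RegularKernelPerturbations
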