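import Pool.Agent.K1H27.SN.Fin

/-!
# MP_5ac32f_an: arbitrary normal operators plus operators of the Schatten classes `C_p`, `p < 2`

Let `N` be a normal operator on a separable Hilbert space and let `K` be in the Schatten class `C_p` for
some `p < 2`. No condition is put on `N`: its spectrum may have interior points, its spectral measure may
be anything. For every `t` outside a set which is null for all atomless measures with bounded logarithmic
potential, in particular for almost every complex and for almost every real `t`, the operator `N + t K` is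
a multiple of the identity or has a nontrivial closed hyperinvariant subspace; for these `t` every point of
the spectrum carries, for every `ε > 0`, a nonzero vector whose local spectrum is in the disc of radius
`ε`, and the same holds for the adjoint.

The starting library has the case that `K` is of trace class (`MP_f981b0_an.NormalPlusTraceClass`) and the
case that the spectrum of `N` has upper Minkowski dimension less than two (`SchattenCouplings`, by
integrability of the logarithm of the resolvent, which makes no sense if the spectrum has positive area).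

Proof. `N` is the multiplication by `φ` on `L²(μ)`, `K = ∑ s_j ⟪e_j, ·⟫ f_j`. Write `u_j = s_j^(1-δ) f_j`,
`v_j = s_j^δ e_j` with `δ = p / q`, `q = 2^(m+1)` large; then `∑ ‖u_j‖² < ∞`, but the `v_j` are only
bounded. The formal local resolvent of `x` at `z` is `(x + t ∑ c_j(z) u_j) / (z - φ)`,
`c = (1 - t X(z))⁻¹ b(z)`, with `X_ij = ⟪v_i, u_j / (z - φ)⟫`, `b_i = ⟪v_i, x / (z - φ)⟫`. The matrices
`X(z)` are not of trace class, but their columns satisfy `∑ ‖X(z) ε_j‖^r < ∞` for almost every `z` and
an `r < 2`: by an inequality of Cordes (Araki, Lieb, Thirring) for the weight `w = |z - φ|^(-1/q)`,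
`∑ s_i^(2δ) |⟪e_i, w g⟫|² ≤ (∑ s_i^p ∫ |e_i|² / |z - φ| dμ)^(2/q) ‖g‖²`,
so that `‖X(z) ε_j‖² ≤ (∑ s_i^p ∫ |e_i|² / |z - φ|)^(2/q) ∫ |u_j|² |z - φ|^(2/q - 2) dμ`, and all these
potentials are integrable over discs. With the regularized determinant `det (1 - t X) exp (t tr X)` (bounds
for it and for the inverse by Hadamard's inequality, `R276.CP` of the library) one obtains that
`log⁻ |det (1 - t X(z)) exp (t tr X(z))|` is integrable in `(z, t)`, uniformly in the number of terms, and
the vectors `∮ (z - c)^n h(z) f(z) dz` exist for suitable outer functions `h` on almost every circle, as in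
the case of the trace class. They give nonzero vectors with small local spectra for `T` and for its
adjoint, which annihilate each other across the commutant if the spectrum has two points. If it has one
point, Lomonosov's theorem applies.

The inequality of Cordes, the area integrals and the bounds for the inverses were formalised by helper31
(`K1H31.SN`), the rest by helper27 (`K1H27.SN`); the parts `CORE`, `RAD`, `SEL`, `OUTQ`, `LIM`, `SPN`,
`ANN` of project NK belong to the starting library.
-/

set_option autoImplicit false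

open MeasureTheory Metric
open scoped InnerProductSpace ENNReal NNReal

namespace Pool.Agent.Results.MP_5ac32f_an.SchattenArbitraryNormal

section Defs

variable {H : Type} [NormedAddCommGroup H] [InnerProductSpace ℂ H]

/-- `T` is a multiple of the identity. -/
def IsScalar (T : H →L[ℂ] H) : Prop := ∃ c : ℂ, T = c • (1 : H →L[ℂ] H)

/-- `T` has a closed subspace, neither `{0}` nor the whole space, which is invariant under every
bounded operator commuting with `T`. -/
def HasHyperinvariant (T : H →L[ℂ] H) : Prop :=
  ∃ V : Submodule ℂ H, IsClosed (V : Set H) ∧ V ≠ ⊥ ∧ V ≠ ⊤ ∧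
    ∀ Q : H →L[ℂ] H, Q * T = T * Q → ∀ x ∈ V, Q x ∈ V

/-- For every point `c` of the spectrum and every `ε > 0` there is a nonzero vector `x` with
`‖(T - c)^n x‖ ≤ C ε ^ n` for all `n`. -/
def SmallLocalSpectra (T : H →L[ℂ] H) : Prop :=
  ∀ c ∈ spectrum ℂ T, ∀ ε : ℝ, 0 < ε → ∃ (x : H) (C : ℝ), x ≠ 0 ∧
    ∀ n : ℕ, ‖((T - c • (1 : H →L[ℂ] H)) ^ n) x‖ ≤ C * ε ^ n

/-- The conclusion of the theorem for one operator. -/
def Good [CompleteSpace H] (T : H →L[ℂ] H) : Prop :=
  (IsScalar T ∨ HasHyperinvariant T) ∧ SmallLocalSpectra T ∧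
    SmallLocalSpectra (ContinuousLinearMap.adjoint T)

/-- `K` is in the Schatten class `C_p`: it has a singular value decomposition
`K x = ∑ s i ⟪e i, x⟫ f i` with orthonormal families `e`, `f` and `s i ≥ 0`, `∑ (s i) ^ p < ∞`. -/
def Schatten (K : H →L[ℂ] H) (p : ℝ) : Prop :=
  ∃ (ι : Type) (e f : ι → H) (s : ι → ℝ), Orthonormal ℂ e ∧ Orthonormal ℂ f ∧ (∀ i, 0 ≤ s i) ∧
    (Summable fun i => s i ^ p) ∧ ∀ x, HasSum (fun i => ((s i : ℂ) * ⟪e i, x⟫_ℂ) • f i) (K x)

end Defs

/-- The measure `m` has no atoms, and on every disc `|t| < R` it is finite and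
`∫ log⁺ (1 / |t - s|) dm(t)` is bounded in `s ∈ ℂ`. -/
def BoundedPotential (m : Measure ℂ) : Prop :=
  (∀ s : ℂ, m {s} = 0) ∧
  ∀ R : ℝ, m (ball (0:ℂ) R) ≠ ⊤ ∧ ∃ C : ℝ≥0, ∀ s : ℂ,
    ∫⁻ t in ball (0:ℂ) R, ENNReal.ofReal (Real.posLog ‖t - s‖⁻¹) ∂m ≤ C

/-- **Perturbations of arbitrary normal operators by operators of the Schatten classes.** Let `N` be
normal and let `K` be in the Schatten class `C_p`, `0 < p < 2`, on a separable Hilbert space. Then
`N + t K` is good (a multiple of the identity or with a nontrivial hyperinvariant subspace, and with small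
local spectra, as its adjoint) for almost every `t` with respect to every atomless measure with bounded
logarithmic potential, in particular for almost every complex and for almost every real `t`. -/
theorem result (H : Type) [NormedAddCommGroup H] [InnerProductSpace ℂ H] [CompleteSpace H]
    [TopologicalSpace.SeparableSpace H] (N K : H →L[ℂ] H) (p : ℝ) (hN : IsStarNormal N)
    (hp0 : 0 < p) (hp2 : p < 2) (hK : Schatten K p) :
    (∀ (m : Measure ℂ) [SFinite m], BoundedPotential m →
      ∀ᵐ t ∂m, Good (N + t • K)) ∧
    (∀ᵐ t : ℂ, Good (N + t • K)) ∧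
    (∀ᵐ t : ℝ, Good (N + (t : ℂ) • K)) := by
  obtain ⟨ι, e, f, s, he, hf, h0, hs, hK⟩ := hK
  have main : ∀ (m : Measure ℂ) [SFinite m], Pool.Agent.Y283.NK.LogBd m →
      ∀ᵐ t ∂m, Good (N + t • K) := by
    intro m _ hm
    filter_upwards [Pool.Agent.K1H27.SN.main0 H N K hN he hf h0 hp0 hp2 hs hK m hm] with t ht
    obtain ⟨h1, h2, h3⟩ := ht
    exact ⟨h1, fun c hc ε hε => Pool.Agent.K1H27.VM.small h2 hc hε,
      fun c hc ε hε => Pool.Agent.K1H27.VM.small h3 hc hε⟩
  refine ⟨?_, ?_, ?_⟩
  · intro m _ hm
    refine main m fun R => ?_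
    obtain ⟨h0, hm⟩ := hm
    obtain ⟨h1, C, hC⟩ := hm R
    refine ⟨C + (m (ball (0:ℂ) R)).toNNReal, ?_, fun s => ?_⟩
    · rw [ENNReal.coe_add, ENNReal.coe_toNNReal h1]
      exact le_add_self
    · calc ∫⁻ t in ball (0:ℂ) R, Pool.Agent.Y283.NK.lm ‖t - s‖ ∂m
          = ∫⁻ t in ball (0:ℂ) R, ENNReal.ofReal (Real.posLog ‖t - s‖⁻¹) ∂m := by
            refine lintegral_congr_ae (ae_restrict_of_ae ?_)
            have h2 : ∀ᵐ t ∂m, t ≠ s := by
              rw [ae_iff]
              simpa using h0 s
            filter_upwards [h2] with t ht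
            unfold Pool.Agent.Y283.NK.lm
            rw [if_neg (by simpa [sub_eq_zero] using ht)]
        _ ≤ C := hC s
        _ ≤ _ := by rw [ENNReal.coe_add]; exact le_self_add
  · exact main volume Pool.Agent.Y891.NK.main_vol.1
  · have h := main (Measure.map (fun t : ℝ => (t : ℂ)) volume) Pool.Agent.Y891.NK.main_vol.2
    exact ae_of_ae_map Complex.continuous_ofReal.measurable.aemeasurable h

end Pool.Agent.Results.MP_5ac32f_an.SchattenArbitraryNormal
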