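import Pool.Agent.K1H27.VM.Fin

/-!
# MP_5ac32f_an: multiplication operators plus Volterra operators on `L^p` have hyperinvariant subspaces

Let `(S, μ)` be a σ-finite measure space, `1 < p < ∞`, `φ` an arbitrary bounded measurable complex function on
`S`, and `k` a kernel on `S × S` which is triangular with respect to a real function `τ` on `S` (`k(x, y) = 0`
unless `τ(y) < τ(x)`) and dominated by `a(x) l(x, y) b(y)` (see `VolterraKernel`). The two main cases are

* `|k(x, y)| ≤ a(x) b(y)` with `a ∈ L^p` and `b ∈ L^q`, `1/p + 1/q = 1` (`VolterraKernel.of_rank_one`);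
* `μ` finite and the `L^r` norms of `k(x, ·)` and `k(·, y)` bounded, where `r > 2`, `r ≥ p`, `r ≥ q`
  (`VolterraKernel.of_slices`), for instance the fractional integration operators of order `> 1/2` on
  `L²(0, 1)`.

Then the operator `(T f)(x) = φ(x) f(x) + ∫ k(x, y) f(y) dμ(y)` on `L^p(μ)` is a multiple of the identity or has
a nontrivial closed hyperinvariant subspace, and at every point of its spectrum there are nonzero vectors
with arbitrarily small local spectral radius. No condition is put on `φ`: the spectrum may have interior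
points, so the methods which cut the spectrum by curves on which the resolvent can be estimated do not apply, and
all couplings are allowed (with `k` also `κ k` is such a kernel).

Proof. Let `z` be a point with `N(z) = ∫ (a b / |z - φ|)^s dμ < ∞`, where `s < 2` is the exponent conjugate
to the one of `l`. The equation `u = f + V (u / (z - φ))`, `V` the integral operator, has a solution by a
Neumann series: with `F(x) = ∫_{τ(y) < τ(x)} (a b / |z - φ|)^s dμ(y)` the iterates satisfy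
`|u_{n+1}(x)| ≤ 2^{-n} a(x) exp(4 F(x)) (∫ (b |f| / |z - φ|)^s dμ)^{1/s}`. So
`|u - f| ≤ 2 a exp(4 N(z)) M(z)` where `N` and `M^s` are locally integrable in `z`. In general `u / (z - φ)` is not in
`L^p`. But on almost every circle about a given point `c` there is an outer function `h` with
`|h(z)| exp(4 N(z)) M(z) ≤ 1`, and the integrals `X_n = ∮ (z - c)^n h(z) u / (z - φ) dz` are in `L^p` for almost every
radius, because the integrals of `1 / |z - w|` over circles about `c` have all powers integrable in the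
radius, uniformly in `w`. They satisfy `(T - c) X_n = X_{n+1}`, `‖X_n‖ ≤ C r^n`, and `X_0 ≠ 0` if `f` is not in the range of
`T - c`. The transposed operator on `L^q` is of the same kind (with `-τ`), so one gets such vectors for it as
well, and vectors at two different points of the spectrum are separated by a hyperinvariant subspace. If
the spectrum is one point `c`, then `T - c` is compact and the theorem of Lomonosov applies.

The parts of the formal proof were written by helpers 27 (proof, statements, local resolvents, assembly), 26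
(integrals over circles), 65 (exponential weight), 28 (duality and Hille-Tamarkin operators), 2
(compactness) and 48 (two points, one point). The scheme of the integrated local resolvents and the outer
functions (`Y681.NK`), `W577.HI` (Lomonosov) belong to the starting library.
-/

set_option autoImplicit false

open MeasureTheory
open scoped ENNReal NNReal

namespace Pool.Agent.Results.MP_5ac32f_an.VolterraPlusMultiplication

/-- `T` is a multiple of the identity. -/
def IsScalar {X : Type} [NormedAddCommGroup X] [NormedSpace ℂ X] (T : X →L[ℂ] X) : Prop :=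
  ∃ c : ℂ, T = c • (1 : X →L[ℂ] X)

/-- `T` has a closed subspace, neither `{0}` nor the whole space, which is invariant under every
bounded operator commuting with `T`. -/
def HasHyperinvariant {X : Type} [NormedAddCommGroup X] [NormedSpace ℂ X] (T : X →L[ℂ] X) : Prop :=
  ∃ V : Submodule ℂ X, IsClosed (V : Set X) ∧ V ≠ ⊥ ∧ V ≠ ⊤ ∧
    ∀ Q : X →L[ℂ] X, Q * T = T * Q → ∀ x ∈ V, Q x ∈ V

/-- At every point `c` of the spectrum and for every `ε > 0` there is a vector `x ≠ 0` with
`‖(T - c)^n x‖ ≤ C ε^n` for all `n`. -/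
def SmallLocalSpectra {X : Type} [NormedAddCommGroup X] [NormedSpace ℂ X] (T : X →L[ℂ] X) :
    Prop :=
  ∀ c ∈ spectrum ℂ T, ∀ ε : ℝ, 0 < ε → ∃ (x : X) (C : ℝ), x ≠ 0 ∧
    ∀ n : ℕ, ‖((T - c • (1 : X →L[ℂ] X)) ^ n) x‖ ≤ C * ε ^ n

/-- `k` is a kernel on `S × S` of Volterra type for `L^p(μ)`, `1/p + 1/q = 1`: it is measurable,
`k(x, y) = 0` unless `τ(y) < τ(x)`, and `|k(x, y)| ≤ a(x) l(x, y) b(y)` where, for some `1 ≤ s < 2` and
`1/s + 1/s' = 1`, the functions `l(x, ·)` and `l(·, y)` have norm at most one in `L^{s'}(μ)`,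
`a ∈ L^p ∩ L^α` with `1/α + 1/q = 1/s`, and `b ∈ L^q ∩ L^β` with `1/β + 1/p = 1/s`. -/
structure VolterraKernel {S : Type} [MeasurableSpace S] (μ : Measure S) (p q : ℝ≥0∞) (τ : S → ℝ)
    (k : S → S → ℂ) : Prop where
  measurable_time : Measurable τ
  measurable_kernel : Measurable (Function.uncurry k)
  triangular : ∀ x y, k x y ≠ 0 → τ y < τ x
  dominated : ∃ (s s' α β : ℝ≥0∞) (a b : S → ℝ) (l : S → S → ℝ),
    s < 2 ∧ s⁻¹ + s'⁻¹ = 1 ∧ α⁻¹ + q⁻¹ = s⁻¹ ∧ β⁻¹ + p⁻¹ = s⁻¹ ∧
    Measurable a ∧ Measurable b ∧ Measurable (Function.uncurry l) ∧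
    MemLp a p μ ∧ MemLp a α μ ∧ MemLp b q μ ∧ MemLp b β μ ∧
    (∀ x, eLpNorm (fun y => l x y) s' μ ≤ 1) ∧ (∀ y, eLpNorm (fun x => l x y) s' μ ≤ 1) ∧
    ∀ x y, ‖k x y‖ ≤ a x * l x y * b y

/-- **Multiplication operators plus Volterra operators on `L^p`.** Let `1 < p < ∞`, let `φ` be any
bounded measurable complex function and `k` a kernel of Volterra type. Then
`(T f)(x) = φ(x) f(x) + ∫ k(x, y) f(y) dμ(y)` defines a bounded operator on `L^p(μ)`, `T` is a multiple of
the identity or has a nontrivial closed hyperinvariant subspace, and there are nonzero vectors with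
arbitrarily small local spectral radius at every point of the spectrum. -/
theorem result (S : Type) [MeasurableSpace S] (μ : Measure S) [SigmaFinite μ] (p q : ℝ≥0∞)
    [Fact (1 ≤ p)] (hpq : p⁻¹ + q⁻¹ = 1) (hp : p ≠ ∞) (hq : q ≠ ∞) (φ : S → ℂ)
    (hφ : Measurable φ) (hφb : ∃ M : ℝ, ∀ x, ‖φ x‖ ≤ M) (τ : S → ℝ) (k : S → S → ℂ)
    (hk : VolterraKernel μ p q τ k) :
    ∃ T : Lp ℂ p μ →L[ℂ] Lp ℂ p μ,
      (∀ f : Lp ℂ p μ, ∀ᵐ x ∂μ, T f x = φ x * f x + ∫ y, k x y * f y ∂μ) ∧
      (IsScalar T ∨ HasHyperinvariant T) ∧ SmallLocalSpectra T := by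
  obtain ⟨s, s', α, β, a, b, l, hs2, hss, hα, hβ, ma, mb, ml, ha, ha', hb, hb', l1, l2, hle⟩ :=
    hk.dominated
  have h : Pool.Agent.K1H27.VM.Ker μ s s' τ k a b l :=
    ⟨hk.measurable_time, hk.measurable_kernel, ma, mb, ml, ENNReal.holderConjugate_iff.2 hss, hs2,
      hk.triangular, l1, l2, hle⟩
  obtain ⟨T, h1, h2, h3⟩ := Pool.Agent.K1H27.VM.main (ENNReal.holderConjugate_iff.2 hpq) hp hq
    ⟨hα⟩ ⟨hβ⟩ hφ hφb h ha ha' hb hb'
  exact ⟨T, h1, h2, fun c hc ε hε => Pool.Agent.K1H27.VM.small h3 hc hε⟩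

/-- The kernels with `|k(x, y)| ≤ a(x) b(y)`, `a ∈ L^p`, `b ∈ L^q`. -/
theorem VolterraKernel.of_rank_one {S : Type} [MeasurableSpace S] {μ : Measure S} {p q : ℝ≥0∞}
    (hpq : p⁻¹ + q⁻¹ = 1) {τ : S → ℝ} (hτ : Measurable τ) {k : S → S → ℂ}
    (hk : Measurable (Function.uncurry k)) (hs : ∀ x y, k x y ≠ 0 → τ y < τ x) {a b : S → ℝ}
    (ma : Measurable a) (mb : Measurable b) (ha : MemLp a p μ) (hb : MemLp b q μ)
    (hle : ∀ x y, ‖k x y‖ ≤ a x * b y) : VolterraKernel μ p q τ k := by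
  have h1 : eLpNorm (fun _ : S => (1:ℝ)) ∞ μ ≤ 1 := by
    refine (eLpNorm_le_of_ae_bound (C := 1) (Filter.Eventually.of_forall fun _ => by simp)).trans ?_
    simp
  refine ⟨hτ, hk, hs, 1, ∞, p, q, a, b, fun _ _ => 1, by norm_num, by simp, by simpa using hpq,
    by simpa [add_comm] using hpq, ma, mb, measurable_const, ha, ha, hb, hb, fun _ => h1,
    fun _ => h1, fun x y => by simpa using hle x y⟩

/-- The kernels on a finite measure space whose slices are bounded in `L^r`, `r > 2`, `r ≥ p`,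
`r ≥ q`. -/
theorem VolterraKernel.of_slices {S : Type} [MeasurableSpace S] {μ : Measure S}
    [IsFiniteMeasure μ] {p q r : ℝ≥0∞} (hpq : p⁻¹ + q⁻¹ = 1) (hr : 2 < r) (hpr : p ≤ r)
    (hqr : q ≤ r) {τ : S → ℝ} (hτ : Measurable τ) {k : S → S → ℂ}
    (hk : Measurable (Function.uncurry k)) (hs : ∀ x y, k x y ≠ 0 → τ y < τ x) {C : ℝ}
    (h1 : ∀ x, eLpNorm (fun y => k x y) r μ ≤ ENNReal.ofReal C)
    (h2 : ∀ y, eLpNorm (fun x => k x y) r μ ≤ ENNReal.ofReal C) : VolterraKernel μ p q τ k := by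
  set D : ℝ := max C 1 with hD
  have hD0 : 0 < D := lt_of_lt_of_le one_pos (le_max_right _ _)
  have hri : r⁻¹ < 2⁻¹ := ENNReal.inv_lt_inv.2 hr
  have h21 : (2:ℝ≥0∞)⁻¹ + 2⁻¹ = 1 := ENNReal.inv_two_add_inv_two
  have hr1 : r⁻¹ ≤ 1 := hri.le.trans (by rw [← h21]; exact le_self_add)
  have hs1 : (1 - r⁻¹) + r⁻¹ = 1 := tsub_add_cancel_of_le hr1
  have key : ∀ u v : ℝ≥0∞, u⁻¹ + v⁻¹ = 1 → u ≤ r → v⁻¹ ≤ 1 - r⁻¹ := by
    intro u v huv hu
    refine ENNReal.le_sub_of_add_le_right (ne_top_of_le_ne_top ENNReal.one_ne_top hr1) ?_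
    rw [← huv, add_comm]
    gcongr
  have hq1 : q⁻¹ ≤ 1 - r⁻¹ := key p q hpq hpr
  have hp1 : p⁻¹ ≤ 1 - r⁻¹ := key q p (by rw [add_comm]; exact hpq) hqr
  have hlt : (1 - r⁻¹)⁻¹ < 2 := by
    rw [ENNReal.inv_lt_iff_inv_lt]
    by_contra hcon
    push Not at hcon
    have h5 : (1 : ℝ≥0∞) < 1 := by
      calc (1 : ℝ≥0∞) = (1 - r⁻¹) + r⁻¹ := hs1.symm
        _ < 2⁻¹ + 2⁻¹ := ENNReal.add_lt_add_of_le_of_lt
            (ne_top_of_le_ne_top (by simp) hcon) hcon hri
        _ = 1 := h21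
    exact lt_irrefl _ h5
  have hsl : ∀ g : S → ℂ, eLpNorm g r μ ≤ ENNReal.ofReal C →
      eLpNorm (fun y => ‖g y‖ / D) r μ ≤ 1 := by
    intro g hg
    have e1 : (fun y => ‖g y‖ / D) = D⁻¹ • fun y => ‖g y‖ := by
      funext y
      rw [Pi.smul_apply, smul_eq_mul]
      ring
    rw [e1, eLpNorm_const_smul, eLpNorm_norm]
    calc ‖D⁻¹‖ₑ * eLpNorm g r μ ≤ ‖D⁻¹‖ₑ * ENNReal.ofReal D := by
          gcongr
          exact hg.trans (ENNReal.ofReal_le_ofReal (le_max_left _ _))
      _ = 1 := by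
          rw [Real.enorm_of_nonneg (inv_nonneg.2 hD0.le), ← ENNReal.ofReal_mul (inv_nonneg.2 hD0.le),
            inv_mul_cancel₀ hD0.ne', ENNReal.ofReal_one]
  refine ⟨hτ, hk, hs, (1 - r⁻¹)⁻¹, r, ((1 - r⁻¹) - q⁻¹)⁻¹, ((1 - r⁻¹) - p⁻¹)⁻¹, fun _ => D,
    fun _ => 1, fun x y => ‖k x y‖ / D, hlt, by rw [inv_inv]; exact hs1, ?_, ?_,
    measurable_const, measurable_const, hk.norm.div_const D, memLp_const _, memLp_const _,
    memLp_const _, memLp_const _, fun x => hsl _ (h1 x), fun y => hsl _ (h2 y), fun x y => ?_⟩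
  · rw [inv_inv, inv_inv]; exact tsub_add_cancel_of_le hq1
  · rw [inv_inv, inv_inv]; exact tsub_add_cancel_of_le hp1
  · rw [mul_one, mul_div_cancel₀ _ hD0.ne']

end Pool.Agent.Results.MP_5ac32f_an.VolterraPlusMultiplication
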